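import Pool.Agent.SZT.StmtsA
import Pool.Agent.Helper75_BHT.A2

set_option autoImplicit false

/-!
# SZT, row ODA: odd annulus, archimedean case, two points
-/

namespace Pool.Agent.SZT.H78

open Polynomial
open Pool.Agent.MNT (QU vC)
open scoped Classical

theorem norm_eval_prod (s : Multiset ℂ) (y : ℂ) :
    ‖((s.map fun t => (X - C t : ℂ[X])).prod).eval y‖ = (s.map fun t => ‖y - t‖).prod := by
  induction s using Multiset.induction_on with
  | empty => simp
  | cons a s ih => simp [ih]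

theorem log_prod_map (g : ℂ → ℝ) (hg : ∀ t, 0 < g t) (s : Multiset ℂ) :
    0 < (s.map g).prod ∧ (s.map fun t => Real.log (g t)).sum = Real.log (s.map g).prod := by
  induction s using Multiset.induction_on with
  | empty => simp
  | cons a s ih =>
    simp only [Multiset.map_cons, Multiset.sum_cons, Multiset.prod_cons]
    refine ⟨mul_pos (hg a) ih.1, ?_⟩
    rw [Real.log_mul (hg a).ne' ih.1.ne', ih.2]

theorem prod_le (f g : ℂ → ℝ) (s : Multiset ℂ) (hf : ∀ t ∈ s, 0 ≤ f t) (h : ∀ t ∈ s, f t ≤ g t) :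
    0 ≤ (s.map f).prod ∧ (s.map f).prod ≤ (s.map g).prod := by
  induction s using Multiset.induction_on with
  | empty => simp
  | cons a s ih =>
    have h1 := ih (fun t ht => hf t (Multiset.mem_cons_of_mem ht))
      (fun t ht => h t (Multiset.mem_cons_of_mem ht))
    have h2 := hf a (Multiset.mem_cons_self a s)
    have h3 := h a (Multiset.mem_cons_self a s)
    simp only [Multiset.map_cons, Multiset.prod_cons]
    exact ⟨mul_nonneg h2 h1.1, mul_le_mul h3 h1.2 h1.1 (h2.trans h3)⟩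

theorem sum_le (f g : ℂ → ℝ) (s : Multiset ℂ) (h : ∀ t, f t ≤ g t + Real.log 64) :
    (s.map f).sum ≤ (s.map g).sum + (Multiset.card s : ℝ) * Real.log 64 := by
  induction s using Multiset.induction_on with
  | empty => simp
  | cons a s ih =>
    simp only [Multiset.map_cons, Multiset.sum_cons, Multiset.card_cons]
    push_cast
    have := h a
    linarith

/-- ODA -/
theorem oda (a1g : MNT.A1gStmt) (a2 : BHT.A2Stmt) : OdaStmt := by
  intro F a N U W hF hs ζ r hr hodd hann
  have hG : U ^ 2 - (((X - C (a 0)) * (X - C (a 1))) ^ N) ^ 2 = F * W ^ 2 := by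
    have := hs.eq
    linear_combination this
  have h1 := a1g U (((X - C (a 0)) * (X - C (a 1))) ^ N) F W hG ζ (r / 2) r (by positivity)
    (by linarith) hodd hann
  obtain ⟨A, hA⟩ : ∃ A : ℝ, A = max r ‖a 0 - ζ‖ := ⟨_, rfl⟩
  have hAr : r ≤ A := hA ▸ le_max_left _ _
  have hAx : ‖a 0 - ζ‖ ≤ A := hA ▸ le_max_right _ _
  have hA0 : 0 < A := hr.trans_le hAr
  obtain ⟨B, hB⟩ : ∃ B : ℝ, B = max r ‖a 1 - ζ‖ := ⟨_, rfl⟩
  have hBr : r ≤ B := hB ▸ le_max_left _ _
  have hBx : ‖a 1 - ζ‖ ≤ B := hB ▸ le_max_right _ _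
  have hB0 : 0 < B := hr.trans_le hBr
  have hlead : ‖U.leadingCoeff‖ = 1 := by
    have h := congrArg norm hs.lead
    rw [norm_pow, norm_one] at h
    exact (pow_left_inj₀ (norm_nonneg _) zero_le_one two_ne_zero).1 (by rw [h, one_pow])
  have hcard : Multiset.card U.roots = 2 * N := by
    rw [← hs.deg]
    exact (IsAlgClosed.splits U).natDegree_eq_card_roots.symm
  obtain ⟨near, hnear⟩ : ∃ near : Multiset ℂ, near = U.roots.filter fun t => ‖t - ζ‖ < 2 * r :=
    ⟨_, rfl⟩
  obtain ⟨far, hfar⟩ : ∃ far : Multiset ℂ, far = U.roots.filter fun t => ¬ ‖t - ζ‖ < 2 * r :=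
    ⟨_, rfl⟩
  have hZ : U.roots = near + far := by
    rw [hnear, hfar, Multiset.filter_add_not]
  have hnm : ∀ t ∈ near, ‖t - ζ‖ < 2 * r := by
    intro t ht
    rw [hnear] at ht
    exact (Multiset.mem_filter.1 ht).2
  have hfm : ∀ t ∈ far, 2 * r ≤ ‖t - ζ‖ := by
    intro t ht
    rw [hfar] at ht
    exact not_lt.1 (Multiset.mem_filter.1 ht).2
  obtain ⟨g, hg⟩ : ∃ g : ℂ → ℝ, ∀ t, g t = if ‖t - ζ‖ < 2 * r then r / 32 else ‖t - ζ‖ / 2 :=
    ⟨_, fun _ => rfl⟩
  have hg0 : ∀ t, 0 < g t := by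
    intro t
    rw [hg]
    split_ifs with h
    · positivity
    · have := not_lt.1 h
      linarith
  have hgn : (near.map g).prod = (r / 32) ^ Multiset.card near := by
    have h : near.map g = near.map fun _ => r / 32 :=
      Multiset.map_congr rfl fun t ht => by rw [hg, if_pos (hnm t ht)]
    rw [h, Multiset.map_const', Multiset.prod_replicate]
  obtain ⟨Pf, hPf⟩ : ∃ Pf : ℝ, Pf = (far.map g).prod := ⟨_, rfl⟩
  have hPf0 : 0 < Pf := hPf ▸ (log_prod_map g hg0 far).1
  obtain ⟨D, hDd⟩ : ∃ D : ℝ, D = ((2 * A) * (2 * B)) ^ N := ⟨_, rfl⟩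
  have hD : 0 < D := by
    rw [hDd]
    positivity
  obtain ⟨K₀, hK₀⟩ : ∃ K₀ : ℝ, K₀ = Pf / D := ⟨_, rfl⟩
  have hK0 : 0 < K₀ := by
    rw [hK₀]
    positivity
  obtain ⟨T, hT⟩ : ∃ T : ℂ[X], T = C (K₀ : ℂ) * (near.map fun t => (X - C t : ℂ[X])).prod :=
    ⟨_, rfl⟩
  have hmon : ((near.map fun t => (X - C t : ℂ[X])).prod).Monic :=
    monic_multiset_prod_of_monic _ _ fun t _ => monic_X_sub_C _
  have hKc : (K₀ : ℂ) ≠ 0 := by exact_mod_cast hK0.ne'
  have hTl : ‖T.leadingCoeff‖ = K₀ := by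
    rw [hT, leadingCoeff_mul, leadingCoeff_C, hmon.leadingCoeff, mul_one, Complex.norm_real,
      Real.norm_of_nonneg hK0.le]
  have hTd : T.natDegree = Multiset.card near := by
    rw [hT, natDegree_C_mul hKc, natDegree_multiset_prod_X_sub_C_eq_card]
  have h2 : ∀ ρ ∈ Set.Ioo (r / 2) r, ∃ y : ℂ, ‖y - ζ‖ = ρ ∧ ‖T.eval y‖ ≤ 1 := by
    intro ρ hρ
    obtain ⟨y, hy, hUy⟩ := h1 ρ hρ
    refine ⟨y, hy, ?_⟩
    rw [hT, eval_mul, eval_C, norm_mul, Complex.norm_real, Real.norm_of_nonneg hK0.le,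
      norm_eval_prod]
    have h3 : ‖U.eval y‖ = (near.map fun t => ‖y - t‖).prod *
        (far.map fun t => ‖y - t‖).prod := by
      rw [BHT.a2_norm_eval, hlead, one_mul, hZ, Multiset.map_add, Multiset.prod_add]
    have h4 : Pf ≤ (far.map fun t => ‖y - t‖).prod := by
      rw [hPf]
      refine (prod_le g _ far (fun t _ => (hg0 t).le) ?_).2
      intro t ht
      have h5 := hfm t ht
      rw [hg, if_neg (not_lt.2 h5)]
      have h6 : ‖t - ζ‖ ≤ ‖y - t‖ + ‖y - ζ‖ := by
        have : t - ζ = -(y - t) + (y - ζ) := by ring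
        calc ‖t - ζ‖ = ‖-(y - t) + (y - ζ)‖ := by rw [← this]
          _ ≤ ‖-(y - t)‖ + ‖y - ζ‖ := norm_add_le _ _
          _ = _ := by rw [norm_neg]
      have h7 := hρ.2
      rw [hy] at h6
      linarith
    have hfac : ∀ (x : ℂ) (M : ℝ), r ≤ M → ‖x - ζ‖ ≤ M → ‖y - x‖ ≤ 2 * M := by
      intro x M hM hx
      have : y - x = (y - ζ) - (x - ζ) := by ring
      rw [this]
      refine (norm_sub_le _ _).trans ?_
      have h7 := hρ.2
      rw [hy]
      linarith
    have h5 : ‖(((X - C (a 0)) * (X - C (a 1))) ^ N).eval y‖ ≤ D := by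
      rw [eval_pow, eval_mul, eval_sub, eval_sub, eval_X, eval_C, eval_C, norm_pow, norm_mul, hDd]
      refine pow_le_pow_left₀ (by positivity) ?_ N
      exact mul_le_mul (hfac _ _ hAr hAx) (hfac _ _ hBr hBx) (norm_nonneg _) (by positivity)
    have h6 : 0 ≤ (near.map fun t => ‖y - t‖).prod :=
      (prod_le (fun t => ‖y - t‖) _ near (fun t _ => norm_nonneg _) fun t _ => le_rfl).1
    have h7 : Pf * (near.map fun t => ‖y - t‖).prod ≤ D := by
      refine le_trans ?_ (hUy.trans h5)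
      rw [h3, mul_comm Pf]
      exact mul_le_mul_of_nonneg_left h4 h6
    rw [hK₀, div_mul_eq_mul_div, div_le_one hD]
    exact h7
  have h3 := a2 T ζ (r / 2) r (by positivity) (by linarith) h2
  rw [hTl, hTd] at h3
  have h4 : (r - r / 2) / 16 = r / 32 := by ring
  rw [h4] at h3
  have h5 : (U.roots.map g).prod ≤ D := by
    rw [hZ, Multiset.map_add, Multiset.prod_add, hgn, ← hPf]
    rw [hK₀, div_mul_eq_mul_div, div_le_one hD] at h3
    rw [mul_comm]
    exact h3
  obtain ⟨h6, h7⟩ := log_prod_map g hg0 U.roots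
  have h8 : Real.log (U.roots.map g).prod ≤ N * Real.log ((2 * A) * (2 * B)) := by
    rw [← Real.log_pow, ← hDd]
    exact Real.log_le_log h6 h5
  have h9 : ∀ t, Real.log (max r (vC (t - ζ))) ≤ Real.log (g t) + Real.log 64 := by
    intro t
    rw [← Real.log_mul (hg0 t).ne' (by norm_num)]
    apply Real.log_le_log (lt_max_of_lt_left hr)
    show max r ‖t - ζ‖ ≤ g t * 64
    rw [hg]
    split_ifs with h
    · apply max_le <;> linarith
    · have := not_lt.1 h
      apply max_le <;> linarith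
  have h10 := sum_le (fun t => Real.log (max r (vC (t - ζ)))) (fun t => Real.log (g t)) U.roots h9
  rw [h7, hcard] at h10
  unfold Hm JJ
  rw [hcard]
  have h11 : max r (vC (a 0 - ζ)) = A := hA.symm
  have h11' : max r (vC (a 1 - ζ)) = B := hB.symm
  rw [h11, h11']
  refine h10.trans ?_
  have h12 : Real.log ((2 * A) * (2 * B)) = 2 * Real.log 2 + (Real.log A + Real.log B) := by
    rw [Real.log_mul (by positivity) (by positivity), Real.log_mul (by norm_num) hA0.ne',
      Real.log_mul (by norm_num) hB0.ne']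
    ring
  have h13 : Real.log 128 = Real.log 2 + Real.log 64 := by
    rw [← Real.log_mul (by norm_num) (by norm_num)]
    norm_num
  rw [h13]
  rw [h12] at h8
  push_cast
  linarith

end Pool.Agent.SZT.H78
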